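import Mathlib

/-!
# Exponential Riesz bases for the boundary length measure of a square
-/

open MeasureTheory Measure Set
open scoped ENNReal RealInnerProductSpace ComplexConjugate

namespace Pool.Agent.Results.MP_9e9244_an.SquareRieszBasis

/-- the Euclidean plane -/
abbrev E := EuclideanSpace ℝ (Fin 2)

/-- the exponential `e_l(x) = exp (2 π i ⟨l, x⟩)` -/
noncomputable def ex {V : Type} [NormedAddCommGroup V] [InnerProductSpace ℝ V] (l x : V) : ℂ :=
  Complex.exp (2 * Real.pi * Complex.I * ((inner ℝ l x : ℝ) : ℂ))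

/-- the finite linear combination `∑_{l ∈ F} c_l e_l` -/
noncomputable def comb {V : Type} [NormedAddCommGroup V] [InnerProductSpace ℝ V]
    (F : Finset V) (c : V → ℂ) (x : V) : ℂ :=
  ∑ l ∈ F, c l * ex l x

/-- the linear span of the exponentials with frequencies in `Λ` is dense in `L²(μ)` -/
def DenseSpan {V : Type} [NormedAddCommGroup V] [InnerProductSpace ℝ V] [MeasurableSpace V]
    (μ : Measure V) (Λ : Set V) : Prop :=
  ∀ f : V → ℂ, MemLp f 2 μ → ∀ ε : ℝ, 0 < ε → ∃ (F : Finset V) (c : V → ℂ),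
    (F : Set V) ⊆ Λ ∧ ∫ x, ‖f x - comb F c x‖ ^ 2 ∂μ < ε

/-- the two-sided Riesz inequality, for all finitely supported sequences -/
def RieszIneq {V : Type} [NormedAddCommGroup V] [InnerProductSpace ℝ V] [MeasurableSpace V]
    (μ : Measure V) (Λ : Set V) (A B : ℝ) : Prop :=
  ∀ (F : Finset V) (c : V → ℂ), (F : Set V) ⊆ Λ →
    A * ∑ l ∈ F, ‖c l‖ ^ 2 ≤ ∫ x, ‖comb F c x‖ ^ 2 ∂μ ∧
    ∫ x, ‖comb F c x‖ ^ 2 ∂μ ≤ B * ∑ l ∈ F, ‖c l‖ ^ 2

/-- `E(Λ)` is an exponential Riesz basis for the finite measure `μ`: `Λ` is countable, the span is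
dense, and the Riesz inequality holds for all finitely supported sequences. -/
def IsRieszBasis {V : Type} [NormedAddCommGroup V] [InnerProductSpace ℝ V] [MeasurableSpace V]
    (μ : Measure V) (Λ : Set V) : Prop :=
  IsFiniteMeasure μ ∧ Λ.Countable ∧ DenseSpan μ Λ ∧
    ∃ A B : ℝ, 0 < A ∧ A ≤ B ∧ RieszIneq μ Λ A B

/-- the boundary of the parallelogram with vertices `b`, `b + u`, `b + u + v`, `b + v` -/
def bdry {V : Type} [AddCommGroup V] [Module ℝ V] (b u v : V) : Set V :=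
  segment ℝ b (b + u) ∪ segment ℝ (b + v) (b + v + u) ∪ segment ℝ b (b + v) ∪
    segment ℝ (b + u) (b + u + v)

/-- the length measure on the boundary of the parallelogram -/
noncomputable def sig (b u v : E) : Measure E := (μH[1] : Measure E).restrict (bdry b u v)

theorem ex_continuous (l : E) : Continuous (ex l) := by
  unfold ex
  fun_prop

theorem norm_ex (l x : E) : ‖ex l x‖ = 1 := by
  unfold ex
  rw [show 2 * (Real.pi : ℂ) * Complex.I * ((inner ℝ l x : ℝ) : ℂ)
    = ((2 * Real.pi * inner ℝ l x : ℝ) : ℂ) * Complex.I by push_cast; ring]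
  exact Complex.norm_exp_ofReal_mul_I _

theorem ex_memLp (μ : Measure E) [IsFiniteMeasure μ] (l : E) : MemLp (ex l) 2 μ := by
  refine MemLp.of_bound (ex_continuous l).aestronglyMeasurable 1 ?_
  exact Filter.Eventually.of_forall fun x => (norm_ex l x).le

/-- the exponential as an element of `L²(μ)` -/
noncomputable def exLp (μ : Measure E) [IsFiniteMeasure μ] (l : E) : Lp ℂ 2 μ :=
  (ex_memLp μ l).toLp (ex l)

/-! ## The measure as a sum of four edges -/

/-- Lebesgue measure on `[0, 1]` -/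
noncomputable def tau : Measure ℝ := volume.restrict (Icc (0 : ℝ) 1)

instance : IsFiniteMeasure tau := by
  unfold tau
  infer_instance

/-- the length measure of the edge from `p` to `p + w` -/
noncomputable def edgeM (p w : E) : Measure E :=
  ENNReal.ofReal ‖w‖ • tau.map (fun t => p + t • w)

theorem cont_edge (p w : E) : Continuous (fun t : ℝ => p + t • w) := by fun_prop

theorem lineMap_eq (p w : E) : (fun t : ℝ => AffineMap.lineMap (k := ℝ) p (p + w) t)
    = fun t : ℝ => p + t • w := by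
  funext t
  simp [AffineMap.lineMap_apply, add_comm]

theorem restrict_segment (p w : E) :
    (μH[1] : Measure E).restrict (segment ℝ p (p + w)) = edgeM p w := by
  ext s hs
  rw [restrict_apply hs, segment_eq_image_lineMap]
  have h1 : s ∩ (AffineMap.lineMap (k := ℝ) p (p + w)) '' Icc (0 : ℝ) 1 =
      (AffineMap.lineMap (k := ℝ) p (p + w)) '' ((fun t : ℝ => p + t • w) ⁻¹' s ∩ Icc (0 : ℝ) 1) := by
    rw [← lineMap_eq]
    ext x
    constructor
    · rintro ⟨hx, t, ht, rfl⟩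
      exact ⟨t, ⟨hx, ht⟩, rfl⟩
    · rintro ⟨t, ⟨h1, h2⟩, rfl⟩
      exact ⟨h1, t, h2, rfl⟩
  rw [h1, hausdorffMeasure_lineMap_image, hausdorffMeasure_real]
  unfold edgeM tau
  rw [Measure.smul_apply, map_apply (cont_edge p w).measurable hs,
    restrict_apply ((cont_edge p w).measurable hs)]
  have h2 : nndist p (p + w) = ‖w‖₊ := by
    rw [nndist_eq_nnnorm]
    simp
  rw [h2, ofReal_norm_eq_enorm, ENNReal.smul_def]
  rfl

variable {b u v : E}

theorem coord_inj (h : LinearIndependent ℝ ![u, v]) {x y x' y' : ℝ}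
    (he : x • u + y • v = x' • u + y' • v) : x = x' ∧ y = y' := by
  rw [LinearIndependent.pair_iff] at h
  have := h (x - x') (y - y') (by
    have : x • u + y • v - (x' • u + y' • v) = 0 := by rw [he]; simp
    calc (x - x') • u + (y - y') • v = x • u + y • v - (x' • u + y' • v) := by
          rw [sub_smul, sub_smul]; abel
      _ = 0 := this)
  constructor
  · linarith [this.1]
  · linarith [this.2]

theorem seg_mem {p w x : E} (hx : x ∈ segment ℝ p (p + w)) : ∃ t : ℝ, x = p + t • w := by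
  rw [segment_eq_image_lineMap] at hx
  obtain ⟨t, -, rfl⟩ := hx
  exact ⟨t, congrFun (lineMap_eq p w) t⟩

instance : NullSingletonClass (μH[1] : Measure E) :=
  nullSingletonClass_hausdorff E one_pos

theorem null_of_single {s t : Set E} {p : E} (h : s ∩ t ⊆ {p}) :
    AEDisjoint (μH[1] : Measure E) s t := by
  refine measure_mono_null h ?_
  exact measure_singleton p

theorem meas_seg (p w : E) : MeasurableSet (segment ℝ p w) := by
  rw [segment_eq_image_lineMap]
  exact (isCompact_Icc.image (AffineMap.lineMap_continuous (R := ℝ) (p := p) (q := w))).measurableSet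

theorem sig_eq (h : LinearIndependent ℝ ![u, v]) :
    sig b u v = edgeM b u + edgeM (b + v) u + edgeM b v + edgeM (b + u) v := by
  have d12 : AEDisjoint (μH[1] : Measure E) (segment ℝ b (b + u)) (segment ℝ (b + v) (b + v + u)) := by
    refine null_of_single (p := b) ?_
    rintro x ⟨h1, h2⟩
    obtain ⟨t, rfl⟩ := seg_mem h1
    obtain ⟨s, hs⟩ := seg_mem h2
    exfalso
    have := coord_inj h (x := t) (y := 0) (x' := s) (y' := 1) (by
      have : b + (t • u + (0 : ℝ) • v) = b + (s • u + (1 : ℝ) • v) := by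
        rw [zero_smul, add_zero, one_smul, hs]; abel
      exact add_left_cancel this)
    exact zero_ne_one this.2
  have d13 : AEDisjoint (μH[1] : Measure E) (segment ℝ b (b + u)) (segment ℝ b (b + v)) := by
    refine null_of_single (p := b) ?_
    rintro x ⟨h1, h2⟩
    obtain ⟨t, rfl⟩ := seg_mem h1
    obtain ⟨s, hs⟩ := seg_mem h2
    have := coord_inj h (x := t) (y := 0) (x' := 0) (y' := s) (by
      have : b + (t • u + (0 : ℝ) • v) = b + ((0 : ℝ) • u + s • v) := by
        rw [zero_smul, add_zero, zero_smul, hs]; abel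
      exact add_left_cancel this)
    rw [this.1]
    simp
  have d23 : AEDisjoint (μH[1] : Measure E) (segment ℝ (b + v) (b + v + u)) (segment ℝ b (b + v)) := by
    refine null_of_single (p := b + v) ?_
    rintro x ⟨h1, h2⟩
    obtain ⟨t, rfl⟩ := seg_mem h1
    obtain ⟨s, hs⟩ := seg_mem h2
    have := coord_inj h (x := t) (y := 1) (x' := 0) (y' := s) (by
      have : b + (t • u + (1 : ℝ) • v) = b + ((0 : ℝ) • u + s • v) := by
        rw [one_smul, zero_smul, zero_add, ← hs]; abel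
      exact add_left_cancel this)
    rw [this.1]
    simp
  have d14 : AEDisjoint (μH[1] : Measure E) (segment ℝ b (b + u)) (segment ℝ (b + u) (b + u + v)) := by
    refine null_of_single (p := b + u) ?_
    rintro x ⟨h1, h2⟩
    obtain ⟨t, rfl⟩ := seg_mem h1
    obtain ⟨s, hs⟩ := seg_mem h2
    have := coord_inj h (x := t) (y := 0) (x' := 1) (y' := s) (by
      have : b + (t • u + (0 : ℝ) • v) = b + ((1 : ℝ) • u + s • v) := by
        rw [zero_smul, add_zero, one_smul, hs]; abel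
      exact add_left_cancel this)
    rw [this.1]
    simp
  have d24 : AEDisjoint (μH[1] : Measure E) (segment ℝ (b + v) (b + v + u))
      (segment ℝ (b + u) (b + u + v)) := by
    refine null_of_single (p := b + u + v) ?_
    rintro x ⟨h1, h2⟩
    obtain ⟨t, rfl⟩ := seg_mem h1
    obtain ⟨s, hs⟩ := seg_mem h2
    have := coord_inj h (x := t) (y := 1) (x' := 1) (y' := s) (by
      have : b + (t • u + (1 : ℝ) • v) = b + ((1 : ℝ) • u + s • v) := by
        rw [one_smul, one_smul]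
        calc b + (t • u + v) = b + v + t • u := by abel
          _ = b + u + s • v := hs
          _ = b + (u + s • v) := by abel
      exact add_left_cancel this)
    rw [this.1, one_smul]
    show b + v + u = b + u + v
    abel
  have d34 : AEDisjoint (μH[1] : Measure E) (segment ℝ b (b + v)) (segment ℝ (b + u) (b + u + v)) := by
    refine null_of_single (p := b) ?_
    rintro x ⟨h1, h2⟩
    obtain ⟨t, rfl⟩ := seg_mem h1
    obtain ⟨s, hs⟩ := seg_mem h2
    exfalso
    have := coord_inj h (x := 0) (y := t) (x' := 1) (y' := s) (by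
      have : b + ((0 : ℝ) • u + t • v) = b + ((1 : ℝ) • u + s • v) := by
        rw [zero_smul, zero_add, one_smul, hs]; abel
      exact add_left_cancel this)
    exact zero_ne_one this.1
  unfold sig bdry
  rw [restrict_union₀ _ (meas_seg _ _).nullMeasurableSet,
    restrict_union₀ _ (meas_seg _ _).nullMeasurableSet,
    restrict_union₀ d12 (meas_seg _ _).nullMeasurableSet, restrict_segment, restrict_segment,
    restrict_segment, restrict_segment]
  · exact AEDisjoint.union_left d13 d23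
  · exact AEDisjoint.union_left (AEDisjoint.union_left d14 d24) d34

instance (p w : E) : IsFiniteMeasure (edgeM p w) := by
  unfold edgeM
  have : IsFiniteMeasure (tau.map fun t : ℝ => p + t • w) := by infer_instance
  exact Measure.smul_finite _ ENNReal.ofReal_ne_top

theorem sig_finite (h : LinearIndependent ℝ ![u, v]) : IsFiniteMeasure (sig b u v) := by
  rw [sig_eq h]
  infer_instance

/-! ## Fourier analysis on `[0, 1]` -/

/-- `e(t) = exp (2 π i t)` -/
noncomputable def e (t : ℝ) : ℂ := Complex.exp (2 * Real.pi * Complex.I * (t : ℂ))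

theorem e_add (s t : ℝ) : e (s + t) = e s * e t := by
  unfold e
  rw [← Complex.exp_add]
  congr 1
  push_cast
  ring

theorem e_zero : e 0 = 1 := by simp [e]

theorem norm_e (t : ℝ) : ‖e t‖ = 1 := by
  unfold e
  rw [show 2 * (Real.pi : ℂ) * Complex.I * (t : ℂ)
    = ((2 * Real.pi * t : ℝ) : ℂ) * Complex.I by push_cast; ring]
  exact Complex.norm_exp_ofReal_mul_I _

theorem conj_e (t : ℝ) : conj (e t) = e (-t) := by
  unfold e
  rw [← Complex.exp_conj]
  congr 1
  simp [map_ofNat]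

theorem e_int (m : ℤ) : e m = 1 := by
  unfold e
  rw [show 2 * (Real.pi : ℂ) * Complex.I * ((m : ℝ) : ℂ) = m * (2 * Real.pi * Complex.I) by
    push_cast; ring]
  exact Complex.exp_int_mul_two_pi_mul_I m

theorem e_half : e (1 / 2) = -1 := by
  unfold e
  rw [show 2 * (Real.pi : ℂ) * Complex.I * (((1 / 2 : ℝ)) : ℂ) = Real.pi * Complex.I by
    push_cast; ring]
  exact Complex.exp_pi_mul_I

theorem e_ne_zero (t : ℝ) : e t ≠ 0 := Complex.exp_ne_zero _

theorem cont_e : Continuous e := by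
  unfold e
  fun_prop

theorem integral_e (m : ℤ) (hm : m ≠ 0) : ∫ x : ℝ, e (m * x) ∂tau = 0 := by
  unfold tau
  rw [integral_Icc_eq_integral_Ioc, ← intervalIntegral.integral_of_le zero_le_one]
  have h1 : ∀ x : ℝ, e (m * x) = Complex.exp ((2 * Real.pi * Complex.I * m) * x) := by
    intro x
    unfold e
    congr 1
    push_cast
    ring
  simp_rw [h1]
  have hc : (2 * (Real.pi : ℂ) * Complex.I * m) ≠ 0 := by
    have : (m : ℂ) ≠ 0 := by exact_mod_cast hm
    have h2 := Complex.two_pi_I_ne_zero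
    exact mul_ne_zero h2 this
  rw [integral_exp_mul_complex hc]
  have h3 : Complex.exp (2 * (Real.pi : ℂ) * Complex.I * m * ((1 : ℝ) : ℂ)) = 1 := by
    have := Complex.exp_int_mul_two_pi_mul_I m
    rw [← this]
    congr 1
    push_cast
    ring
  rw [h3]
  simp

instance : IsProbabilityMeasure tau := ⟨by
  unfold tau
  simp⟩

/-- orthonormality of the exponentials -/
theorem parseval (K : Finset ℤ) (a : ℤ → ℂ) :
    ∫ x : ℝ, ‖∑ m ∈ K, a m * e (m * x)‖ ^ 2 ∂tau = ∑ m ∈ K, ‖a m‖ ^ 2 := by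
  have h1 : ∀ x : ℝ, ((‖∑ m ∈ K, a m * e (m * x)‖ ^ 2 : ℝ) : ℂ) =
      ∑ m ∈ K, ∑ n ∈ K, a m * conj (a n) * e (((m - n : ℤ) : ℝ) * x) := by
    intro x
    push_cast
    rw [← Complex.mul_conj', _root_.map_sum, Finset.sum_mul_sum]
    refine Finset.sum_congr rfl fun m _ => Finset.sum_congr rfl fun n _ => ?_
    rw [map_mul, conj_e]
    have : e (((m - n : ℤ) : ℝ) * x) = e (m * x) * e (-(n * x)) := by
      rw [← e_add]
      congr 1
      push_cast
      ring
    push_cast at this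
    rw [this]
    ring
  have h2 : ((∫ x : ℝ, ‖∑ m ∈ K, a m * e (m * x)‖ ^ 2 ∂tau : ℝ) : ℂ) =
      ((∑ m ∈ K, ‖a m‖ ^ 2 : ℝ) : ℂ) := by
    rw [← integral_complex_ofReal]
    simp_rw [h1]
    have hint : ∀ m n : ℤ, Integrable
        (fun x : ℝ => a m * conj (a n) * e (((m - n : ℤ) : ℝ) * x)) tau := by
      intro m n
      unfold tau
      have hc : Continuous fun x : ℝ => a m * conj (a n) * e (((m - n : ℤ) : ℝ) * x) :=
        continuous_const.mul (cont_e.comp (continuous_const.mul continuous_id))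
      exact hc.continuousOn.integrableOn_Icc
    rw [integral_finsetSum _ fun m _ => integrable_finsetSum _ fun n _ => hint m n,
      Complex.ofReal_sum]
    refine Finset.sum_congr rfl fun m hm => ?_
    rw [integral_finsetSum _ fun n _ => hint m n]
    rw [Finset.sum_eq_single_of_mem m hm]
    · rw [integral_const_mul]
      simp only [sub_self, Int.cast_zero, zero_mul, e_zero]
      rw [integral_const]
      simp [Complex.mul_conj']
    · intro n _ hn
      rw [integral_const_mul, integral_e (m - n) (sub_ne_zero.2 (Ne.symm hn)), mul_zero]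
  exact_mod_cast h2

theorem reflect {F : Type*} [NormedAddCommGroup F] [NormedSpace ℝ F] (g : ℝ → F) :
    ∫ x, g (1 - x) ∂tau = ∫ x, g x ∂tau := by
  unfold tau
  rw [integral_Icc_eq_integral_Ioc, integral_Icc_eq_integral_Ioc,
    ← intervalIntegral.integral_of_le zero_le_one, ← intervalIntegral.integral_of_le zero_le_one,
    intervalIntegral.integral_comp_sub_left]
  simp

theorem zero_of_coeff {G : ℝ → ℂ} (hG : MemLp G 2 tau)
    (h : ∀ m : ℤ, ∫ x, e (-(m * x)) * G x ∂tau = 0) : G =ᵐ[tau] 0 := by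
  have hIoc : tau = volume.restrict (Ioc (0 : ℝ) 1) := by
    unfold tau
    exact (restrict_congr_set Ioc_ae_eq_Icc).symm
  rw [hIoc] at hG h ⊢
  have hs := hasSum_sq_fourierCoeffOn (zero_lt_one (α := ℝ)) hG
  have hc : ∀ i : ℤ, fourierCoeffOn (zero_lt_one (α := ℝ)) G i = 0 := by
    intro i
    rw [fourierCoeffOn_eq_integral]
    have h1 : ∫ x in (0 : ℝ)..1, (fourier (-i) : C(AddCircle ((1 : ℝ) - 0), ℂ)) (x : AddCircle ((1 : ℝ) - 0)) • G x
        = ∫ x in Ioc (0 : ℝ) 1, e (-(i * x)) * G x := by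
      rw [intervalIntegral.integral_of_le zero_le_one]
      congr 1
      funext x
      rw [fourier_coe_apply, smul_eq_mul]
      congr 1
      unfold e
      congr 1
      push_cast
      ring
    rw [h1, h i, smul_zero]
  have h2 : (fun i => ‖fourierCoeffOn (zero_lt_one (α := ℝ)) G i‖ ^ 2) = fun _ => 0 := by
    funext i
    rw [hc i]
    simp
  rw [h2] at hs
  have h3 := hs.unique hasSum_zero
  have h4 : ∫ x in Ioc (0 : ℝ) 1, ‖G x‖ ^ 2 = 0 := by
    rw [intervalIntegral.integral_of_le zero_le_one] at h3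
    simpa using h3
  have hi : Integrable (fun x => ‖G x‖ ^ 2) (volume.restrict (Ioc (0 : ℝ) 1)) :=
    hG.integrable_norm_pow (by norm_num)
  rw [integral_eq_zero_iff_of_nonneg (fun x => by positivity) hi] at h4
  filter_upwards [h4] with x hx
  simpa using hx

/-! ## The frequencies -/

/-- the first coordinates of the frequencies -/
noncomputable def al : Fin 4 → ℤ → ℝ
  | 0, m => m
  | 1, m => m + 1 / 2
  | 2, m => m
  | 3, m => m + 1 / 2

/-- the second coordinates of the frequencies -/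
noncomputable def be : Fin 4 → ℤ → ℝ
  | 0, m => m
  | 1, m => -m + 1 / 2
  | 2, m => m + 1 / 2
  | 3, m => 1 - m

/-- the vector with prescribed inner products with `u` and `v` -/
noncomputable def dual (u v : E) (α β : ℝ) : E :=
  WithLp.toLp 2 ![(α * v 1 - β * u 1) / (u 0 * v 1 - u 1 * v 0),
    (-α * v 0 + β * u 0) / (u 0 * v 1 - u 1 * v 0)]

theorem det_ne (h : LinearIndependent ℝ ![u, v]) : u 0 * v 1 - u 1 * v 0 ≠ 0 := by
  intro hd
  rw [LinearIndependent.pair_iff] at h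
  by_cases h0 : v 0 = 0 ∧ v 1 = 0
  · have := h 0 1 (by
      ext i
      fin_cases i
      · simp [h0.1]
      · simp [h0.2])
    exact one_ne_zero this.2
  · by_cases h1 : v 0 = 0
    · have hv1 : v 1 ≠ 0 := fun h2 => h0 ⟨h1, h2⟩
      have := h (v 1) (-(u 1)) (by
        ext i
        fin_cases i
        · simp only [PiLp.add_apply, PiLp.smul_apply, smul_eq_mul, PiLp.zero_apply]
          show v 1 * u 0 + -(u 1) * v 0 = 0
          linarith
        · simp only [PiLp.add_apply, PiLp.smul_apply, smul_eq_mul, PiLp.zero_apply]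
          show v 1 * u 1 + -(u 1) * v 1 = 0
          ring)
      exact hv1 this.1
    · have := h (v 0) (-(u 0)) (by
        ext i
        fin_cases i
        · simp only [PiLp.add_apply, PiLp.smul_apply, smul_eq_mul, PiLp.zero_apply]
          show v 0 * u 0 + -(u 0) * v 0 = 0
          ring
        · simp only [PiLp.add_apply, PiLp.smul_apply, smul_eq_mul, PiLp.zero_apply]
          show v 0 * u 1 + -(u 0) * v 1 = 0
          linarith)
      exact h1 this.1

theorem inner_two (x y : E) : inner ℝ x y = x 0 * y 0 + x 1 * y 1 := by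
  rw [EuclideanSpace.inner_eq_star_dotProduct]
  simp [dotProduct, Fin.sum_univ_two]
  ring

theorem inner_dual (h : LinearIndependent ℝ ![u, v]) (α β : ℝ) :
    inner ℝ (dual u v α β) u = α ∧ inner ℝ (dual u v α β) v = β := by
  have hd := det_ne h
  have e0 : dual u v α β 0 = (α * v 1 - β * u 1) / (u 0 * v 1 - u 1 * v 0) := rfl
  have e1 : dual u v α β 1 = (-α * v 0 + β * u 0) / (u 0 * v 1 - u 1 * v 0) := rfl
  rw [inner_two, inner_two, e0, e1]
  constructor
  · rw [div_mul_eq_mul_div, div_mul_eq_mul_div, ← add_div, div_eq_iff hd]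
    ring
  · rw [div_mul_eq_mul_div, div_mul_eq_mul_div, ← add_div, div_eq_iff hd]
    ring

/-- the frequencies -/
noncomputable def fr (u v : E) (g : Fin 4 × ℤ) : E := dual u v (al g.1 g.2) (be g.1 g.2)

theorem ex_fr (h : LinearIndependent ℝ ![u, v]) (g : Fin 4 × ℤ) (x y : ℝ) :
    ex (fr u v g) (b + x • u + y • v) =
      ex (fr u v g) b * (e (al g.1 g.2 * x) * e (be g.1 g.2 * y)) := by
  obtain ⟨h1, h2⟩ := inner_dual h (al g.1 g.2) (be g.1 g.2)
  unfold ex fr e
  rw [inner_add_right, inner_add_right, inner_smul_right, inner_smul_right, h1, h2,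
    ← Complex.exp_add, ← Complex.exp_add]
  congr 1
  push_cast
  ring

theorem al_be_inj : Function.Injective fun g : Fin 4 × ℤ => (al g.1 g.2, be g.1 g.2) := by
  rintro ⟨i, m⟩ ⟨j, n⟩ h
  simp only [Prod.mk.injEq] at h
  obtain ⟨h1, h2⟩ := h
  have hh : ∀ p q : ℤ, (p : ℝ) + 1 / 2 ≠ q := by
    intro p q hpq
    have : (2 * p + 1 : ℤ) = 2 * q := by
      have : (2 * (p : ℝ) + 1) = 2 * q := by linarith
      exact_mod_cast this
    omega
  fin_cases i <;> fin_cases j <;> simp only [al, be] at h1 h2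
  · have : m = n := by exact_mod_cast h1
    rw [this]
  · exact absurd h1.symm (hh n m)
  · exact absurd h2.symm (hh n m)
  · exact absurd h1.symm (hh n m)
  · exact absurd h1 (hh m n)
  · have : m = n := by exact_mod_cast (by linarith : (m : ℝ) = n)
    rw [this]
  · exact absurd h1 (hh m n)
  · exact absurd (show (((-m : ℤ)) : ℝ) + 1 / 2 = ((1 - n : ℤ) : ℝ) by push_cast; exact h2)
      (hh _ _)
  · exact absurd h2 (hh m n)
  · exact absurd h1.symm (hh n m)
  · have : m = n := by exact_mod_cast h1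
    rw [this]
  · exact absurd h1.symm (hh n m)
  · exact absurd h1 (hh m n)
  · exact absurd (show (((-n : ℤ)) : ℝ) + 1 / 2 = ((1 - m : ℤ) : ℝ) by push_cast; exact h2.symm)
      (hh _ _)
  · exact absurd h1 (hh m n)
  · have : m = n := by exact_mod_cast (by linarith : (m : ℝ) = n)
    rw [this]

theorem fr_inj (h : LinearIndependent ℝ ![u, v]) : Function.Injective (fr u v) := by
  intro g g' hg
  apply al_be_inj
  have h1 := inner_dual h (al g.1 g.2) (be g.1 g.2)
  have h2 := inner_dual h (al g'.1 g'.2) (be g'.1 g'.2)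
  unfold fr at hg
  rw [hg] at h1
  exact Prod.ext (h1.1.symm.trans h2.1) (h1.2.symm.trans h2.2)

/-! ## The Riesz inequality -/

theorem norm_sq_Lp {μ : Measure E} (f : Lp ℂ 2 μ) : ‖f‖ ^ 2 = ∫ x, ‖f x‖ ^ 2 ∂μ := by
  have h := L2.inner_def (𝕜 := ℂ) f f
  rw [inner_self_eq_norm_sq_to_K] at h
  simp_rw [inner_self_eq_norm_sq_to_K] at h
  have h2 : ((‖f‖ ^ 2 : ℝ) : ℂ) = ((∫ x, ‖f x‖ ^ 2 ∂μ : ℝ) : ℂ) := by
    rw [← integral_complex_ofReal]
    push_cast
    exact h
  exact_mod_cast h2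

theorem integral_edge {F : Type*} [NormedAddCommGroup F] [NormedSpace ℝ F] (p w : E) (G : E → F)
    (hG : AEStronglyMeasurable G (tau.map fun t : ℝ => p + t • w)) :
    ∫ x, G x ∂(edgeM p w) = ‖w‖ • ∫ t, G (p + t • w) ∂tau := by
  unfold edgeM
  rw [integral_smul_measure, integral_map (cont_edge p w).measurable.aemeasurable hG,
    ENNReal.toReal_ofReal (norm_nonneg w)]

theorem cont_int {F : Type*} [NormedAddCommGroup F] (μ : Measure E) [IsFiniteMeasure μ]
    {G : E → F} (hG : Continuous G) {M : ℝ} (hM : ∀ x, ‖G x‖ ≤ M) : Integrable G μ := by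
  refine Integrable.of_bound hG.aestronglyMeasurable M (Filter.Eventually.of_forall hM)

theorem integral_sig (h : LinearIndependent ℝ ![u, v]) {G : E → ℝ} (hG : Continuous G) {M : ℝ}
    (hM : ∀ x, ‖G x‖ ≤ M) :
    ∫ x, G x ∂(sig b u v) = ‖u‖ * ∫ t, G (b + t • u) ∂tau + ‖u‖ * ∫ t, G (b + v + t • u) ∂tau
      + ‖v‖ * ∫ t, G (b + t • v) ∂tau + ‖v‖ * ∫ t, G (b + u + t • v) ∂tau := by
  rw [sig_eq h, integral_add_measure (cont_int _ hG hM) (cont_int _ hG hM),
    integral_add_measure (cont_int _ hG hM) (cont_int _ hG hM),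
    integral_add_measure (cont_int _ hG hM) (cont_int _ hG hM),
    integral_edge _ _ _ hG.aestronglyMeasurable, integral_edge _ _ _ hG.aestronglyMeasurable,
    integral_edge _ _ _ hG.aestronglyMeasurable, integral_edge _ _ _ hG.aestronglyMeasurable]
  simp only [smul_eq_mul]

theorem four_sq {n x y z w : ℝ} (hn : 0 ≤ n) (h : 2 * n ≤ x + y + z + w) :
    n ^ 2 ≤ x ^ 2 + y ^ 2 + z ^ 2 + w ^ 2 := by
  have h1 : (2 * n) ^ 2 ≤ (x + y + z + w) ^ 2 := pow_le_pow_left₀ (by linarith) h 2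
  nlinarith [sq_nonneg (x - y), sq_nonneg (x - z), sq_nonneg (x - w), sq_nonneg (y - z),
    sq_nonneg (y - w), sq_nonneg (z - w)]

theorem two_sq (a c : ℂ) : ‖a + c‖ ^ 2 ≤ 2 * ‖a‖ ^ 2 + 2 * ‖c‖ ^ 2 := by
  have h1 := norm_add_le a c
  have h2 : ‖a + c‖ ^ 2 ≤ (‖a‖ + ‖c‖) ^ 2 := pow_le_pow_left₀ (norm_nonneg _) h1 2
  nlinarith [sq_nonneg (‖a‖ - ‖c‖)]

theorem quad (A B C D ω : ℂ) (hω : ‖ω‖ = 1) :
    ‖A‖ ^ 2 + ‖B‖ ^ 2 + ‖C‖ ^ 2 + ‖D‖ ^ 2 ≤
      4 * (‖A + D‖ ^ 2 + ‖B + C‖ ^ 2 + ‖A + ω * C‖ ^ 2 + ‖D - ω * B‖ ^ 2) ∧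
    ‖A + D‖ ^ 2 + ‖B + C‖ ^ 2 + ‖A + ω * C‖ ^ 2 + ‖D - ω * B‖ ^ 2 ≤
      4 * (‖A‖ ^ 2 + ‖B‖ ^ 2 + ‖C‖ ^ 2 + ‖D‖ ^ 2) := by
  set p := A + D with hp
  set q := B + C with hq
  set r := A + ω * C with hr
  set s := D - ω * B with hs
  have hωq : ‖ω * q‖ = ‖q‖ := by rw [norm_mul, hω, one_mul]
  have tri4 : ∀ a b c d : ℂ, ‖a + b + c + d‖ ≤ ‖a‖ + ‖b‖ + ‖c‖ + ‖d‖ := by
    intro a b c d
    exact (norm_add_le _ _).trans (add_le_add (norm_add₃_le) le_rfl)
  have n2 : ∀ z : ℂ, ‖2 * z‖ = 2 * ‖z‖ := by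
    intro z
    rw [norm_mul]
    norm_num
  have hA : ‖A‖ ^ 2 ≤ ‖p‖ ^ 2 + ‖q‖ ^ 2 + ‖r‖ ^ 2 + ‖s‖ ^ 2 := by
    apply four_sq (norm_nonneg _)
    have : 2 * A = p + (-(ω * q)) + r + (-s) := by rw [hp, hq, hr, hs]; ring
    rw [← n2, this]
    refine (tri4 _ _ _ _).trans ?_
    rw [norm_neg, norm_neg, hωq]
  have hB : ‖B‖ ^ 2 ≤ ‖p‖ ^ 2 + ‖q‖ ^ 2 + ‖r‖ ^ 2 + ‖s‖ ^ 2 := by
    apply four_sq (norm_nonneg _)
    have h1 : ‖B‖ = ‖ω * B‖ := by rw [norm_mul, hω, one_mul]
    have : 2 * (ω * B) = p + (ω * q) + (-r) + (-s) := by rw [hp, hq, hr, hs]; ring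
    rw [h1, ← n2, this]
    refine (tri4 _ _ _ _).trans ?_
    rw [norm_neg, norm_neg, hωq]
  have hC : ‖C‖ ^ 2 ≤ ‖p‖ ^ 2 + ‖q‖ ^ 2 + ‖r‖ ^ 2 + ‖s‖ ^ 2 := by
    apply four_sq (norm_nonneg _)
    have h1 : ‖C‖ = ‖ω * C‖ := by rw [norm_mul, hω, one_mul]
    have : 2 * (ω * C) = -p + (ω * q) + r + s := by rw [hp, hq, hr, hs]; ring
    rw [h1, ← n2, this]
    refine (tri4 _ _ _ _).trans ?_
    rw [norm_neg, hωq]
  have hD : ‖D‖ ^ 2 ≤ ‖p‖ ^ 2 + ‖q‖ ^ 2 + ‖r‖ ^ 2 + ‖s‖ ^ 2 := by
    apply four_sq (norm_nonneg _)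
    have : 2 * D = p + (ω * q) + (-r) + s := by rw [hp, hq, hr, hs]; ring
    rw [← n2, this]
    refine (tri4 _ _ _ _).trans ?_
    rw [norm_neg, hωq]
  constructor
  · linarith
  · have h1 := two_sq A D
    have h2 := two_sq B C
    have h3 := two_sq A (ω * C)
    have h4 := two_sq D (-(ω * B))
    rw [norm_neg, norm_mul, hω, one_mul, ← sub_eq_add_neg] at h4
    rw [norm_mul, hω, one_mul] at h3
    rw [hp, hq, hr, hs]
    linarith

section sums

variable (K : Finset ℤ) (a : Fin 4 → ℤ → ℂ)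

/-- the trigonometric sums in the first variable -/
noncomputable def T (i : Fin 4) (x : ℝ) : ℂ := ∑ m ∈ K, a i m * e (al i m * x)

/-- the trigonometric sums in the second variable -/
noncomputable def L (i : Fin 4) (y : ℝ) : ℂ := ∑ m ∈ K, a i m * e (be i m * y)

/-- the full sum -/
noncomputable def S (x y : ℝ) : ℂ := ∑ i, ∑ m ∈ K, a i m * (e (al i m * x) * e (be i m * y))

theorem cont_T (i : Fin 4) : Continuous (T K a i) := by
  unfold T
  exact continuous_finsetSum _ fun m _ =>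
    continuous_const.mul (cont_e.comp (continuous_const.mul continuous_id))

theorem cont_L (i : Fin 4) : Continuous (L K a i) := by
  unfold L
  exact continuous_finsetSum _ fun m _ =>
    continuous_const.mul (cont_e.comp (continuous_const.mul continuous_id))

theorem e_half_int (m : ℤ) : e (m + 1 / 2) = -1 := by
  rw [e_add, e_int, e_half, one_mul]

theorem S_bottom (x : ℝ) : S K a x 0 = (T K a 0 x + T K a 3 x) + (T K a 1 x + T K a 2 x) := by
  unfold S T
  simp only [mul_zero, e_zero, mul_one, Fin.sum_univ_four]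
  ring

theorem S_top (x : ℝ) : S K a x 1 = (T K a 0 x + T K a 3 x) - (T K a 1 x + T K a 2 x) := by
  unfold S T
  have h0 : ∀ m : ℤ, e (be 0 m) = 1 := fun m => by
    show e ((m : ℝ)) = 1
    rw [e_int]
  have h1 : ∀ m : ℤ, e (be 1 m) = -1 := fun m => by
    show e (-(m : ℝ) + 1 / 2) = -1
    have := e_half_int (-m)
    push_cast at this
    rw [this]
  have h2 : ∀ m : ℤ, e (be 2 m) = -1 := fun m => by
    show e ((m : ℝ) + 1 / 2) = -1
    rw [e_half_int]
  have h3 : ∀ m : ℤ, e (be 3 m) = 1 := fun m => by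
    show e (1 - (m : ℝ)) = 1
    have := e_int (1 - m)
    push_cast at this
    rw [this]
  simp only [h0, h1, h2, h3, Fin.sum_univ_four, mul_one, mul_neg, Finset.sum_neg_distrib]
  ring

theorem S_left (y : ℝ) : S K a 0 y = (L K a 0 y + L K a 2 y) + (L K a 1 y + L K a 3 y) := by
  unfold S L
  simp only [mul_zero, e_zero, one_mul, Fin.sum_univ_four]
  ring

theorem S_right (y : ℝ) : S K a 1 y = (L K a 0 y + L K a 2 y) - (L K a 1 y + L K a 3 y) := by
  unfold S L
  have h0 : ∀ m : ℤ, e (al 0 m) = 1 := fun m => by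
    show e ((m : ℝ)) = 1
    rw [e_int]
  have h1 : ∀ m : ℤ, e (al 1 m) = -1 := fun m => by
    show e ((m : ℝ) + 1 / 2) = -1
    rw [e_half_int]
  have h2 : ∀ m : ℤ, e (al 2 m) = 1 := fun m => by
    show e ((m : ℝ)) = 1
    rw [e_int]
  have h3 : ∀ m : ℤ, e (al 3 m) = -1 := fun m => by
    show e ((m : ℝ) + 1 / 2) = -1
    rw [e_half_int]
  simp only [mul_one, h0, h1, h2, h3, Fin.sum_univ_four, one_mul, neg_mul, mul_neg,
    Finset.sum_neg_distrib]
  ring

theorem L0 (y : ℝ) : L K a 0 y = T K a 0 y := rfl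

theorem L2 (y : ℝ) : L K a 2 y = e (y / 2) * T K a 2 y := by
  unfold L T
  rw [Finset.mul_sum]
  refine Finset.sum_congr rfl fun m _ => ?_
  show a 2 m * e (((m : ℝ) + 1 / 2) * y) = e (y / 2) * (a 2 m * e ((m : ℝ) * y))
  rw [show ((m : ℝ) + 1 / 2) * y = (m : ℝ) * y + y / 2 by ring, e_add]
  ring

theorem L1 (x : ℝ) : L K a 1 (1 - x) = -(e (-x) * T K a 1 x) := by
  unfold L T
  rw [Finset.mul_sum, ← Finset.sum_neg_distrib]
  refine Finset.sum_congr rfl fun m _ => ?_
  show a 1 m * e ((-(m : ℝ) + 1 / 2) * (1 - x)) = -(e (-x) * (a 1 m * e (((m : ℝ) + 1 / 2) * x)))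
  have h := e_half_int (-m)
  push_cast at h
  rw [show (-(m : ℝ) + 1 / 2) * (1 - x) = (-(m : ℝ) + 1 / 2) + (-x + ((m : ℝ) + 1 / 2) * x) by ring,
    e_add (-(m : ℝ) + 1 / 2), e_add (-x), h]
  ring

theorem L3 (x : ℝ) : L K a 3 (1 - x) = e (-(3 * x / 2)) * T K a 3 x := by
  unfold L T
  rw [Finset.mul_sum]
  refine Finset.sum_congr rfl fun m _ => ?_
  show a 3 m * e ((1 - (m : ℝ)) * (1 - x)) = e (-(3 * x / 2)) * (a 3 m * e (((m : ℝ) + 1 / 2) * x))
  have h := e_int (1 - m)
  push_cast at h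
  rw [show (1 - (m : ℝ)) * (1 - x) = (1 - (m : ℝ)) + (-(3 * x / 2) + ((m : ℝ) + 1 / 2) * x) by ring,
    e_add (1 - (m : ℝ)), e_add (-(3 * x / 2)), h]
  ring

theorem norm_L13 (x : ℝ) :
    ‖L K a 1 (1 - x) + L K a 3 (1 - x)‖ = ‖T K a 3 x - e (x / 2) * T K a 1 x‖ := by
  rw [L1, L3]
  have : -(e (-x) * T K a 1 x) + e (-(3 * x / 2)) * T K a 3 x =
      e (-(3 * x / 2)) * (T K a 3 x - e (x / 2) * T K a 1 x) := by
    have h : e (-x) = e (-(3 * x / 2)) * e (x / 2) := by
      rw [← e_add]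
      congr 1
      ring
    rw [h]
    ring
  rw [this, norm_mul, norm_e, one_mul]

theorem parseval_T (i : Fin 4) : ∫ x, ‖T K a i x‖ ^ 2 ∂tau = ∑ m ∈ K, ‖a i m‖ ^ 2 := by
  have key : ∀ i : Fin 4, (∀ m : ℤ, al i m = m + 1 / 2) →
      ∫ x, ‖T K a i x‖ ^ 2 ∂tau = ∑ m ∈ K, ‖a i m‖ ^ 2 := by
    intro i hi
    rw [← parseval K (a i)]
    congr 1
    funext x
    congr 1
    have : T K a i x = e (x / 2) * ∑ m ∈ K, a i m * e (m * x) := by
      unfold T
      rw [Finset.mul_sum]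
      refine Finset.sum_congr rfl fun m _ => ?_
      rw [hi m, show ((m : ℝ) + 1 / 2) * x = (m : ℝ) * x + x / 2 by ring, e_add]
      ring
    rw [this, norm_mul, norm_e, one_mul]
  fin_cases i
  · exact parseval K (a 0)
  · exact key 1 fun _ => rfl
  · exact parseval K (a 2)
  · exact key 3 fun _ => rfl

theorem integrable_cont {g : ℝ → ℝ} (hg : Continuous g) : Integrable g tau := by
  unfold tau
  exact hg.continuousOn.integrableOn_Icc

/-- the Riesz inequality for the sums -/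
theorem riesz_sum {U V : ℝ} (hU : 0 < U) (hV : 0 < V) :
    min U V / 2 * ∑ i, ∑ m ∈ K, ‖a i m‖ ^ 2 ≤
      U * ∫ x, ‖S K a x 0‖ ^ 2 ∂tau + U * ∫ x, ‖S K a x 1‖ ^ 2 ∂tau
        + V * ∫ y, ‖S K a 0 y‖ ^ 2 ∂tau + V * ∫ y, ‖S K a 1 y‖ ^ 2 ∂tau ∧
    U * ∫ x, ‖S K a x 0‖ ^ 2 ∂tau + U * ∫ x, ‖S K a x 1‖ ^ 2 ∂tau
        + V * ∫ y, ‖S K a 0 y‖ ^ 2 ∂tau + V * ∫ y, ‖S K a 1 y‖ ^ 2 ∂tau ≤
      8 * max U V * ∑ i, ∑ m ∈ K, ‖a i m‖ ^ 2 := by
  have c0 := cont_T K a 0
  have c1 := cont_T K a 1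
  have c2 := cont_T K a 2
  have c3 := cont_T K a 3
  have l0 := cont_L K a 0
  have l1 := cont_L K a 1
  have l2 := cont_L K a 2
  have l3 := cont_L K a 3
  have ce : Continuous fun x : ℝ => e (x / 2) := cont_e.comp (continuous_id.div_const 2)
  have hbt : ∫ x, ‖S K a x 0‖ ^ 2 ∂tau + ∫ x, ‖S K a x 1‖ ^ 2 ∂tau =
      2 * ∫ x, (‖T K a 0 x + T K a 3 x‖ ^ 2 + ‖T K a 1 x + T K a 2 x‖ ^ 2) ∂tau := by
    simp only [S_bottom, S_top]
    have i1 : Integrable (fun x => ‖T K a 0 x + T K a 3 x + (T K a 1 x + T K a 2 x)‖ ^ 2) tau :=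
      integrable_cont (by fun_prop)
    have i2 : Integrable (fun x => ‖T K a 0 x + T K a 3 x - (T K a 1 x + T K a 2 x)‖ ^ 2) tau :=
      integrable_cont (by fun_prop)
    rw [← integral_add i1 i2, ← integral_const_mul]
    congr 1
    funext x
    have := parallelogram_law_with_norm ℝ (T K a 0 x + T K a 3 x) (T K a 1 x + T K a 2 x)
    nlinarith [this]
  have hlr : ∫ y, ‖S K a 0 y‖ ^ 2 ∂tau + ∫ y, ‖S K a 1 y‖ ^ 2 ∂tau =
      2 * ∫ x, (‖T K a 0 x + e (x / 2) * T K a 2 x‖ ^ 2 +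
        ‖T K a 3 x - e (x / 2) * T K a 1 x‖ ^ 2) ∂tau := by
    simp only [S_left, S_right]
    have i1 : Integrable (fun x => ‖L K a 0 x + L K a 2 x + (L K a 1 x + L K a 3 x)‖ ^ 2) tau :=
      integrable_cont (by fun_prop)
    have i2 : Integrable (fun x => ‖L K a 0 x + L K a 2 x - (L K a 1 x + L K a 3 x)‖ ^ 2) tau :=
      integrable_cont (by fun_prop)
    have i3 : Integrable (fun x => 2 * ‖L K a 0 x + L K a 2 x‖ ^ 2) tau :=
      integrable_cont (by fun_prop)
    have i4 : Integrable (fun x => 2 * ‖L K a 1 x + L K a 3 x‖ ^ 2) tau :=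
      integrable_cont (by fun_prop)
    have i5 : Integrable (fun x => ‖T K a 0 x + e (x / 2) * T K a 2 x‖ ^ 2) tau :=
      integrable_cont (by fun_prop)
    have i6 : Integrable (fun x => ‖T K a 3 x - e (x / 2) * T K a 1 x‖ ^ 2) tau :=
      integrable_cont (by fun_prop)
    rw [← integral_add i1 i2]
    have h1 : ∀ y, ‖L K a 0 y + L K a 2 y + (L K a 1 y + L K a 3 y)‖ ^ 2 +
        ‖L K a 0 y + L K a 2 y - (L K a 1 y + L K a 3 y)‖ ^ 2 =
        2 * ‖L K a 0 y + L K a 2 y‖ ^ 2 + 2 * ‖L K a 1 y + L K a 3 y‖ ^ 2 := by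
      intro y
      have := parallelogram_law_with_norm ℝ (L K a 0 y + L K a 2 y) (L K a 1 y + L K a 3 y)
      nlinarith [this]
    simp only [h1]
    rw [integral_add i3 i4, integral_const_mul, integral_const_mul,
      ← reflect (fun y => ‖L K a 1 y + L K a 3 y‖ ^ 2)]
    simp only [norm_L13, L0, L2]
    rw [← mul_add, ← integral_add i5 i6]
  have hsum : ∑ i, ∑ m ∈ K, ‖a i m‖ ^ 2 = ∫ x, (‖T K a 0 x‖ ^ 2 + ‖T K a 1 x‖ ^ 2 +
      ‖T K a 2 x‖ ^ 2 + ‖T K a 3 x‖ ^ 2) ∂tau := by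
    have i0 : Integrable (fun x => ‖T K a 0 x‖ ^ 2) tau := integrable_cont (by fun_prop)
    have i1 : Integrable (fun x => ‖T K a 1 x‖ ^ 2) tau := integrable_cont (by fun_prop)
    have i2 : Integrable (fun x => ‖T K a 2 x‖ ^ 2) tau := integrable_cont (by fun_prop)
    have i3 : Integrable (fun x => ‖T K a 3 x‖ ^ 2) tau := integrable_cont (by fun_prop)
    have i01 : Integrable (fun x => ‖T K a 0 x‖ ^ 2 + ‖T K a 1 x‖ ^ 2) tau := i0.add i1
    have i012 : Integrable (fun x => ‖T K a 0 x‖ ^ 2 + ‖T K a 1 x‖ ^ 2 + ‖T K a 2 x‖ ^ 2) tau :=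
      i01.add i2
    rw [integral_add i012 i3, integral_add i01 i2, integral_add i0 i1, parseval_T, parseval_T, parseval_T, parseval_T,
      Fin.sum_univ_four]
  set P1 := ∫ x, (‖T K a 0 x + T K a 3 x‖ ^ 2 + ‖T K a 1 x + T K a 2 x‖ ^ 2) ∂tau with hP1
  set P2 := ∫ x, (‖T K a 0 x + e (x / 2) * T K a 2 x‖ ^ 2 +
        ‖T K a 3 x - e (x / 2) * T K a 1 x‖ ^ 2) ∂tau with hP2
  have hP : P1 + P2 = ∫ x, (‖T K a 0 x + T K a 3 x‖ ^ 2 + ‖T K a 1 x + T K a 2 x‖ ^ 2 +
      (‖T K a 0 x + e (x / 2) * T K a 2 x‖ ^ 2 +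
        ‖T K a 3 x - e (x / 2) * T K a 1 x‖ ^ 2)) ∂tau := by
    have i1 : Integrable (fun x => ‖T K a 0 x + T K a 3 x‖ ^ 2 + ‖T K a 1 x + T K a 2 x‖ ^ 2)
      tau := integrable_cont (by fun_prop)
    have i2 : Integrable (fun x => ‖T K a 0 x + e (x / 2) * T K a 2 x‖ ^ 2 +
        ‖T K a 3 x - e (x / 2) * T K a 1 x‖ ^ 2) tau := integrable_cont (by fun_prop)
    rw [hP1, hP2, ← integral_add i1 i2]
  have hiP : Integrable (fun x => (‖T K a 0 x + T K a 3 x‖ ^ 2 + ‖T K a 1 x + T K a 2 x‖ ^ 2 +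
      (‖T K a 0 x + e (x / 2) * T K a 2 x‖ ^ 2 +
        ‖T K a 3 x - e (x / 2) * T K a 1 x‖ ^ 2))) tau :=
    integrable_cont (by fun_prop)
  have hiS : Integrable (fun x => (‖T K a 0 x‖ ^ 2 + ‖T K a 1 x‖ ^ 2 +
      ‖T K a 2 x‖ ^ 2 + ‖T K a 3 x‖ ^ 2)) tau :=
    integrable_cont (by fun_prop)
  have hlow : ∑ i, ∑ m ∈ K, ‖a i m‖ ^ 2 ≤ 4 * (P1 + P2) := by
    rw [hsum, hP, ← integral_const_mul]
    refine integral_mono hiS (hiP.const_mul 4) fun x => ?_
    have := (quad (T K a 0 x) (T K a 1 x) (T K a 2 x) (T K a 3 x) (e (x / 2)) (norm_e _)).1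
    simp only
    linarith
  have hup : P1 + P2 ≤ 4 * ∑ i, ∑ m ∈ K, ‖a i m‖ ^ 2 := by
    rw [hsum, hP, ← integral_const_mul]
    refine integral_mono hiP (hiS.const_mul 4) fun x => ?_
    have := (quad (T K a 0 x) (T K a 1 x) (T K a 2 x) (T K a 3 x) (e (x / 2)) (norm_e _)).2
    simp only
    linarith
  have hP10 : 0 ≤ P1 := integral_nonneg fun x => by positivity
  have hP20 : 0 ≤ P2 := integral_nonneg fun x => by positivity
  have htot : U * ∫ x, ‖S K a x 0‖ ^ 2 ∂tau + U * ∫ x, ‖S K a x 1‖ ^ 2 ∂tau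
        + V * ∫ y, ‖S K a 0 y‖ ^ 2 ∂tau + V * ∫ y, ‖S K a 1 y‖ ^ 2 ∂tau =
      2 * U * P1 + 2 * V * P2 := by
    rw [← mul_add, hbt, add_assoc, ← mul_add, hlr]
    ring
  rw [htot]
  have hm1 := min_le_left U V
  have hm2 := min_le_right U V
  have hM1 := le_max_left U V
  have hM2 := le_max_right U V
  have hm0 : 0 < min U V := lt_min hU hV
  have hM0 : 0 < max U V := lt_of_lt_of_le hU hM1
  constructor
  · calc min U V / 2 * ∑ i, ∑ m ∈ K, ‖a i m‖ ^ 2 ≤ min U V / 2 * (4 * (P1 + P2)) := by gcongr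
      _ = 2 * min U V * P1 + 2 * min U V * P2 := by ring
      _ ≤ 2 * U * P1 + 2 * V * P2 := by gcongr
  · calc 2 * U * P1 + 2 * V * P2 ≤ 2 * max U V * P1 + 2 * max U V * P2 := by gcongr
      _ = 2 * max U V * (P1 + P2) := by ring
      _ ≤ 2 * max U V * (4 * ∑ i, ∑ m ∈ K, ‖a i m‖ ^ 2) := by gcongr
      _ = _ := by ring

end sums

theorem coe_sum {μ : Measure E} [IsFiniteMeasure μ] (F : Finset E) (c : E → ℂ) :
    (∑ l ∈ F, c l • exLp μ l : Lp ℂ 2 μ) =ᵐ[μ] fun x => ∑ l ∈ F, c l * ex l x := by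
  classical
  induction F using Finset.induction with
  | empty =>
    simp only [Finset.sum_empty]
    exact Lp.coeFn_zero ℂ 2 μ
  | insert l F hl ih =>
    rw [Finset.sum_insert hl]
    filter_upwards [ih, Lp.coeFn_add (c l • exLp μ l) (∑ l ∈ F, c l • exLp μ l),
      Lp.coeFn_smul (c l) (exLp μ l), (ex_memLp μ l).coeFn_toLp] with x h1 h2 h3 h4
    rw [h2, Pi.add_apply, h1, h3, Pi.smul_apply, Finset.sum_insert hl, smul_eq_mul]
    congr 2

theorem norm_sum_sq {μ : Measure E} [IsFiniteMeasure μ] (F : Finset E) (c : E → ℂ) :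
    ‖∑ l ∈ F, c l • exLp μ l‖ ^ 2 = ∫ x, ‖∑ l ∈ F, c l * ex l x‖ ^ 2 ∂μ := by
  rw [norm_sq_Lp]
  refine integral_congr_ae ?_
  filter_upwards [coe_sum F c] with x hx
  rw [hx]

theorem sum_ext (G : Finset (Fin 4 × ℤ)) {R : Type*} [AddCommMonoid R] (f : Fin 4 × ℤ → R) :
    ∑ i, ∑ m ∈ G.image Prod.snd, (if (i, m) ∈ G then f (i, m) else 0) = ∑ g ∈ G, f g := by
  classical
  rw [← Finset.sum_product' (s := Finset.univ) (t := G.image Prod.snd)
    (f := fun i m => if (i, m) ∈ G then f (i, m) else 0)]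
  have hsub : G ⊆ Finset.univ ×ˢ G.image Prod.snd := by
    intro g hg
    rw [Finset.mem_product]
    exact ⟨Finset.mem_univ _, Finset.mem_image_of_mem _ hg⟩
  rw [← Finset.sum_subset hsub]
  · refine Finset.sum_congr rfl fun g hg => ?_
    simp [hg]
  · intro g _ hg
    simp [hg]

theorem riesz_ineq (h : LinearIndependent ℝ ![u, v]) (G : Finset (Fin 4 × ℤ)) (c : E → ℂ) :
    min ‖u‖ ‖v‖ / 2 * ∑ g ∈ G, ‖c (fr u v g)‖ ^ 2 ≤
      ∫ x, ‖∑ g ∈ G, c (fr u v g) * ex (fr u v g) x‖ ^ 2 ∂(sig b u v) ∧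
    ∫ x, ‖∑ g ∈ G, c (fr u v g) * ex (fr u v g) x‖ ^ 2 ∂(sig b u v) ≤
      8 * max ‖u‖ ‖v‖ * ∑ g ∈ G, ‖c (fr u v g)‖ ^ 2 := by
  classical
  have hu : 0 < ‖u‖ := norm_pos_iff.2 (h.ne_zero 0)
  have hv : 0 < ‖v‖ := norm_pos_iff.2 (h.ne_zero 1)
  set K : Finset ℤ := G.image Prod.snd with hK
  set a : Fin 4 → ℤ → ℂ := fun i m =>
    if (i, m) ∈ G then c (fr u v (i, m)) * ex (fr u v (i, m)) b else 0 with ha
  have hval : ∀ x y : ℝ, ∑ g ∈ G, c (fr u v g) * ex (fr u v g) (b + x • u + y • v) =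
      S K a x y := by
    intro x y
    rw [← sum_ext G]
    unfold S
    refine Finset.sum_congr rfl fun i _ => Finset.sum_congr rfl fun m _ => ?_
    simp only [ha]
    split_ifs
    · rw [ex_fr h]
      ring
    · rw [zero_mul]
  have hnorm : ∑ g ∈ G, ‖c (fr u v g)‖ ^ 2 = ∑ i, ∑ m ∈ K, ‖a i m‖ ^ 2 := by
    rw [← sum_ext G]
    refine Finset.sum_congr rfl fun i _ => Finset.sum_congr rfl fun m _ => ?_
    simp only [ha]
    split_ifs
    · rw [norm_mul, norm_ex, mul_one]
    · simp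
  set M : ℝ := ∑ g ∈ G, ‖c (fr u v g)‖ with hM
  have hcont : Continuous fun x : E => ‖∑ g ∈ G, c (fr u v g) * ex (fr u v g) x‖ ^ 2 := by
    refine Continuous.pow (Continuous.norm ?_) 2
    exact continuous_finsetSum _ fun g _ => continuous_const.mul (ex_continuous _)
  have hbd : ∀ x : E, ‖‖∑ g ∈ G, c (fr u v g) * ex (fr u v g) x‖ ^ 2‖ ≤ M ^ 2 := by
    intro x
    rw [Real.norm_of_nonneg (by positivity)]
    refine pow_le_pow_left₀ (norm_nonneg _) ?_ 2
    refine (norm_sum_le _ _).trans (le_of_eq ?_)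
    refine Finset.sum_congr rfl fun g _ => ?_
    rw [norm_mul, norm_ex, mul_one]
  rw [integral_sig h hcont hbd, hnorm]
  have e1 : ∀ t : ℝ, b + t • u = b + t • u + (0 : ℝ) • v := fun t => by simp
  have e2 : ∀ t : ℝ, b + v + t • u = b + t • u + (1 : ℝ) • v := fun t => by
    rw [one_smul]; abel
  have e3 : ∀ t : ℝ, b + t • v = b + (0 : ℝ) • u + t • v := fun t => by simp
  have e4 : ∀ t : ℝ, b + u + t • v = b + (1 : ℝ) • u + t • v := fun t => by
    rw [one_smul]
  have f1 : (fun t : ℝ => ‖∑ g ∈ G, c (fr u v g) * ex (fr u v g) (b + t • u)‖ ^ 2) =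
      fun t => ‖S K a t 0‖ ^ 2 := by
    funext t
    rw [e1, hval]
  have f2 : (fun t : ℝ => ‖∑ g ∈ G, c (fr u v g) * ex (fr u v g) (b + v + t • u)‖ ^ 2) =
      fun t => ‖S K a t 1‖ ^ 2 := by
    funext t
    rw [e2, hval]
  have f3 : (fun t : ℝ => ‖∑ g ∈ G, c (fr u v g) * ex (fr u v g) (b + t • v)‖ ^ 2) =
      fun t => ‖S K a 0 t‖ ^ 2 := by
    funext t
    rw [e3, hval]
  have f4 : (fun t : ℝ => ‖∑ g ∈ G, c (fr u v g) * ex (fr u v g) (b + u + t • v)‖ ^ 2) =
      fun t => ‖S K a 1 t‖ ^ 2 := by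
    funext t
    rw [e4, hval]
  rw [f1, f2, f3, f4]
  exact riesz_sum K a hu hv

/-! ## Completeness -/

theorem memLp_edge {p w : E} (hw : 0 < ‖w‖) {f : E → ℂ} (hf : MemLp f 2 (edgeM p w)) :
    MemLp (fun t : ℝ => f (p + t • w)) 2 tau := by
  have h1 : tau.map (fun t : ℝ => p + t • w) ≤ (ENNReal.ofReal ‖w‖)⁻¹ • edgeM p w := by
    unfold edgeM
    rw [smul_smul, ENNReal.inv_mul_cancel (by simpa using hw) ENNReal.ofReal_ne_top, one_smul]
  have h2 : MemLp f 2 (tau.map (fun t : ℝ => p + t • w)) := by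
    refine MemLp.of_measure_le_smul (c := (ENNReal.ofReal ‖w‖)⁻¹) ?_ h1 hf
    simpa using hw
  exact h2.comp_of_map (cont_edge p w).measurable.aemeasurable

theorem ae_edge {p w : E} {f : E → ℂ} (hf : StronglyMeasurable f)
    (h : (fun t : ℝ => f (p + t • w)) =ᵐ[tau] 0) : ∀ᵐ x ∂(edgeM p w), f x = 0 := by
  unfold edgeM
  refine Measure.ae_smul_measure ?_ _
  rw [ae_map_iff (cont_edge p w).measurable.aemeasurable
    (measurableSet_eq_fun hf.measurable measurable_const)]
  filter_upwards [h] with t ht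
  exact ht

theorem integrable_tau {f : ℝ → ℂ} (hf : MemLp f 2 tau) : Integrable f tau :=
  hf.integrable (by norm_num)

theorem mul_e_memLp {f : ℝ → ℂ} (hf : MemLp f 2 tau) (k : ℝ) :
    MemLp (fun x => e (k * x) * f x) 2 tau := by
  have hb : MemLp (fun x : ℝ => e (k * x)) ⊤ tau := by
    refine memLp_top_of_bound ?_ 1 (Filter.Eventually.of_forall fun x => (norm_e _).le)
    exact (cont_e.comp (continuous_const.mul continuous_id)).aestronglyMeasurable
  exact hf.mul hb

theorem reflect_mp : MeasurePreserving (fun x : ℝ => 1 - x) tau tau := by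
  unfold tau
  have h1 : MeasurePreserving (fun x : ℝ => 1 - x) volume volume :=
    measurePreserving_sub_left volume 1
  have h2 := h1.restrict_preimage (s := Icc (0 : ℝ) 1) measurableSet_Icc
  have h3 : (fun x : ℝ => 1 - x) ⁻¹' Icc (0 : ℝ) 1 = Icc (0 : ℝ) 1 := by
    ext x
    simp only [mem_preimage, mem_Icc]
    constructor <;> rintro ⟨h4, h5⟩ <;> constructor <;> linarith
  rwa [h3] at h2

theorem comb4 {q1 q2 q3 q4 : ℝ → ℂ} (h1 : Integrable q1 tau) (h2 : Integrable q2 tau)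
    (h3 : Integrable q3 tau) (h4 : Integrable q4 tau) {c1 c2 c3 c4 : ℂ} :
    ∫ x, (c1 * q1 x + c2 * q2 x + c3 * q3 x + c4 * q4 x) ∂tau =
      c1 * ∫ x, q1 x ∂tau + c2 * ∫ x, q2 x ∂tau + c3 * ∫ x, q3 x ∂tau + c4 * ∫ x, q4 x ∂tau := by
  have i1 : Integrable (fun x => c1 * q1 x) tau := h1.const_mul _
  have i2 : Integrable (fun x => c2 * q2 x) tau := h2.const_mul _
  have i3 : Integrable (fun x => c3 * q3 x) tau := h3.const_mul _
  have i4 : Integrable (fun x => c4 * q4 x) tau := h4.const_mul _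
  have i12 : Integrable (fun x => c1 * q1 x + c2 * q2 x) tau := i1.add i2
  have i123 : Integrable (fun x => c1 * q1 x + c2 * q2 x + c3 * q3 x) tau := i12.add i3
  rw [integral_add i123 i4, integral_add i12 i3, integral_add i1 i2, integral_const_mul,
    integral_const_mul, integral_const_mul, integral_const_mul]

/-- the four orthogonality relations force a function on the edges to vanish -/
theorem four_eq {U V : ℝ} (hU : 0 < U) (hV : 0 < V) {fb ft fl frr : ℝ → ℂ}
    (mb : MemLp fb 2 tau) (mt : MemLp ft 2 tau) (ml : MemLp fl 2 tau) (mr : MemLp frr 2 tau)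
    (h : ∀ (i : Fin 4) (m : ℤ),
      U * ∫ x, e (-(al i m * x)) * fb x ∂tau
        + U * (e (-(be i m)) * ∫ x, e (-(al i m * x)) * ft x ∂tau)
        + V * ∫ y, e (-(be i m * y)) * fl y ∂tau
        + V * (e (-(al i m)) * ∫ y, e (-(be i m * y)) * frr y ∂tau) = 0) :
    fb =ᵐ[tau] 0 ∧ ft =ᵐ[tau] 0 ∧ fl =ᵐ[tau] 0 ∧ frr =ᵐ[tau] 0 := by
  have ie : ∀ {f : ℝ → ℂ} (k : ℝ), MemLp f 2 tau → Integrable (fun x => e (k * x) * f x) tau :=
    fun k hf => integrable_tau (mul_e_memLp hf k)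
  have ie' : ∀ {f : ℝ → ℂ} (k : ℝ), MemLp f 2 tau → Integrable (fun x => e (-(k * x)) * f x) tau := by
    intro f k hf
    have := ie (-k) hf
    simpa [neg_mul] using this
  have mS : MemLp (fun x => fl (1 - x) - frr (1 - x)) 2 tau :=
    (ml.sub mr).comp_measurePreserving reflect_mp
  have ne1 : ∀ m : ℤ, e (-(m : ℝ)) = 1 := fun m => by
    have := e_int (-m)
    push_cast at this
    exact this
  have ne2 : ∀ m : ℤ, e (-((m : ℝ) + 1 / 2)) = -1 := fun m => by
    have h1 := e_half_int (-m - 1)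
    push_cast at h1
    rw [← h1]
    congr 1
    ring
  have eS : ∀ (k : ℝ), Integrable (fun x => e (k * x) * (fl (1 - x) - frr (1 - x))) tau :=
    fun k => ie k mS
  -- first relation
  have g0 : (fun x => (U : ℂ) * (fb x + ft x) + V * (fl x + frr x)) =ᵐ[tau] 0 := by
    refine zero_of_coeff (((mb.add mt).const_mul _).add ((ml.add mr).const_mul _)) fun m => ?_
    have h0 := h 0 m
    have ha : al 0 m = m := rfl
    have hb : be 0 m = m := rfl
    rw [ha, hb, ne1, one_mul, one_mul] at h0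
    rw [← h0, ← comb4 (ie' m mb) (ie' m mt) (ie' m ml) (ie' m mr)]
    congr 1
    funext x
    ring
  -- third relation
  have g2 : (fun x => (U : ℂ) * (fb x - ft x) + V * (e (-(1 / 2 : ℝ) * x) * (fl x + frr x)))
      =ᵐ[tau] 0 := by
    refine zero_of_coeff (((mb.sub mt).const_mul _).add
      ((mul_e_memLp (ml.add mr) (-(1 / 2))).const_mul _)) fun m => ?_
    have h0 := h 2 m
    have ha : al 2 m = m := rfl
    have hb : be 2 m = m + 1 / 2 := rfl
    rw [ha, hb, ne1, ne2, one_mul] at h0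
    have h1 : (U : ℂ) * ∫ x, e (-(m * x)) * fb x ∂tau + (-(U : ℂ)) * ∫ x, e (-(m * x)) * ft x ∂tau
        + V * ∫ y, e (-((m + 1 / 2 : ℝ) * y)) * fl y ∂tau
        + V * ∫ y, e (-((m + 1 / 2 : ℝ) * y)) * frr y ∂tau = 0 := by
      rw [← h0]; ring
    rw [← h1, ← comb4 (ie' m mb) (ie' m mt) (ie' (m + 1 / 2) ml) (ie' (m + 1 / 2) mr)]
    congr 1
    funext x
    have h2 : e (-((m + 1 / 2 : ℝ) * x)) = e (-(m * x)) * e (-(1 / 2 : ℝ) * x) := by
      rw [← e_add]; congr 1; ring
    rw [h2]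
    ring
  -- reflection of the integrals over the left and right edges
  have hrefl : ∀ (k k' : ℝ) (z : ℂ), (∀ x : ℝ, e (-(k * (1 - x))) = z * e (k' * x)) →
      ∫ y, e (-(k * y)) * fl y ∂tau - ∫ y, e (-(k * y)) * frr y ∂tau =
        z * ∫ x, e (k' * x) * (fl (1 - x) - frr (1 - x)) ∂tau := by
    intro k k' z hz
    rw [← integral_sub (ie' k ml) (ie' k mr), ← integral_const_mul,
      ← reflect (fun y => e (-(k * y)) * fl y - e (-(k * y)) * frr y)]
    congr 1
    funext x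
    rw [hz]
    ring
  -- second relation
  have g1 : (fun x => (U : ℂ) * (e (-(1 / 2 : ℝ) * x) * (fb x - ft x)) -
      V * (e ((1 / 2 : ℝ) * x) * (fl (1 - x) - frr (1 - x)))) =ᵐ[tau] 0 := by
    refine zero_of_coeff (((mul_e_memLp (mb.sub mt) (-(1 / 2))).const_mul _).sub
      ((mul_e_memLp mS (1 / 2)).const_mul _)) fun m => ?_
    have h0 := h 1 m
    have ha : al 1 m = m + 1 / 2 := rfl
    have hb : be 1 m = -m + 1 / 2 := rfl
    have hm : e (-(-(m : ℝ) + 1 / 2)) = -1 := by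
      have h1 := e_half_int (m - 1)
      push_cast at h1
      rw [← h1]
      congr 1
      ring
    rw [ha, hb, ne2, hm] at h0
    have h3 := hrefl (-(m : ℝ) + 1 / 2) (1 / 2 - m) (-1) (fun x => by
      rw [show -((-(m : ℝ) + 1 / 2) * (1 - x)) = -(-(m : ℝ) + 1 / 2) + (1 / 2 - m) * x by ring,
        e_add, hm])
    have h1 : (U : ℂ) * ∫ x, e (-((m + 1 / 2 : ℝ) * x)) * fb x ∂tau
        + (-(U : ℂ)) * ∫ x, e (-((m + 1 / 2 : ℝ) * x)) * ft x ∂tau
        + (-(V : ℂ)) * ∫ x, e ((1 / 2 - m : ℝ) * x) * (fl (1 - x) - frr (1 - x)) ∂tau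
        + 0 * ∫ x, e ((1 / 2 - m : ℝ) * x) * (fl (1 - x) - frr (1 - x)) ∂tau = 0 := by
      linear_combination h0 - (V : ℂ) * h3
    rw [← h1, ← comb4 (ie' (m + 1 / 2) mb) (ie' (m + 1 / 2) mt) (eS (1 / 2 - m)) (eS (1 / 2 - m))]
    congr 1
    funext x
    have h2 : e (-((m + 1 / 2 : ℝ) * x)) = e (-(m * x)) * e (-(1 / 2 : ℝ) * x) := by
      rw [← e_add]; congr 1; ring
    have h4 : e ((1 / 2 - m : ℝ) * x) = e (-(m * x)) * e ((1 / 2 : ℝ) * x) := by
      rw [← e_add]; congr 1; ring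
    rw [h2, h4]
    ring
  -- fourth relation
  have g3 : (fun x => (U : ℂ) * (e (-(1 / 2 : ℝ) * x) * (fb x + ft x)) +
      V * (e ((1 : ℝ) * x) * (fl (1 - x) - frr (1 - x)))) =ᵐ[tau] 0 := by
    refine zero_of_coeff (((mul_e_memLp (mb.add mt) (-(1 / 2))).const_mul _).add
      ((mul_e_memLp mS 1).const_mul _)) fun m => ?_
    have h0 := h 3 m
    have ha : al 3 m = m + 1 / 2 := rfl
    have hb : be 3 m = 1 - m := rfl
    have hm : e (-(1 - (m : ℝ))) = 1 := by
      have h1 := e_int (m - 1)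
      push_cast at h1
      rw [← h1]
      congr 1
      ring
    rw [ha, hb, ne2, hm] at h0
    have h3 := hrefl (1 - (m : ℝ)) (1 - m) 1 (fun x => by
      rw [show -((1 - (m : ℝ)) * (1 - x)) = -(1 - (m : ℝ)) + (1 - m) * x by ring,
        e_add, hm])
    have h1 : (U : ℂ) * ∫ x, e (-((m + 1 / 2 : ℝ) * x)) * fb x ∂tau
        + (U : ℂ) * ∫ x, e (-((m + 1 / 2 : ℝ) * x)) * ft x ∂tau
        + (V : ℂ) * ∫ x, e ((1 - m : ℝ) * x) * (fl (1 - x) - frr (1 - x)) ∂tau
        + 0 * ∫ x, e ((1 - m : ℝ) * x) * (fl (1 - x) - frr (1 - x)) ∂tau = 0 := by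
      linear_combination h0 - (V : ℂ) * h3
    rw [← h1, ← comb4 (ie' (m + 1 / 2) mb) (ie' (m + 1 / 2) mt) (eS (1 - m)) (eS (1 - m))]
    congr 1
    funext x
    have h2 : e (-((m + 1 / 2 : ℝ) * x)) = e (-(m * x)) * e (-(1 / 2 : ℝ) * x) := by
      rw [← e_add]; congr 1; ring
    have h4 : e ((1 - m : ℝ) * x) = e (-(m * x)) * e ((1 : ℝ) * x) := by
      rw [← e_add]; congr 1; ring
    rw [h2, h4]
    ring
  -- conclusion
  have hU' : (U : ℂ) ≠ 0 := by exact_mod_cast hU.ne'
  have hV' : (V : ℂ) ≠ 0 := by exact_mod_cast hV.ne'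
  have hall : ∀ᵐ x ∂tau, fb x = 0 ∧ ft x = 0 ∧ fl x + frr x = 0 ∧
      fl (1 - x) - frr (1 - x) = 0 := by
    filter_upwards [g0, g1, g2, g3] with x h0 h1 h2 h3
    simp only [Pi.zero_apply] at h0 h1 h2 h3
    set w := e ((1 / 2 : ℝ) * x) with hw
    have hw1 : e (-(1 / 2 : ℝ) * x) = w⁻¹ := by
      apply eq_inv_of_mul_eq_one_left
      rw [hw, ← e_add, ← e_zero]
      congr 1
      ring
    have hw2 : e ((1 : ℝ) * x) = w ^ 2 := by
      rw [hw, sq, ← e_add]
      congr 1
      ring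
    have hw0 : w ≠ 0 := e_ne_zero _
    rw [hw1] at h1 h2 h3
    rw [hw2] at h3
    have k2 : U * w * (fb x - ft x) + V * (fl x + frr x) = 0 := by
      have : U * w * (fb x - ft x) + V * (fl x + frr x) =
          w * (U * (fb x - ft x) + V * (w⁻¹ * (fl x + frr x))) := by
        field_simp
      rw [this, h2, mul_zero]
    have k1 : U * (fb x - ft x) - V * w ^ 2 * (fl (1 - x) - frr (1 - x)) = 0 := by
      have : U * (fb x - ft x) - V * w ^ 2 * (fl (1 - x) - frr (1 - x)) =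
          w * (U * (w⁻¹ * (fb x - ft x)) - V * (w * (fl (1 - x) - frr (1 - x)))) := by
        field_simp
      rw [this, h1, mul_zero]
    have k3 : U * (fb x + ft x) + V * w ^ 3 * (fl (1 - x) - frr (1 - x)) = 0 := by
      have : U * (fb x + ft x) + V * w ^ 3 * (fl (1 - x) - frr (1 - x)) =
          w * (U * (w⁻¹ * (fb x + ft x)) + V * (w ^ 2 * (fl (1 - x) - frr (1 - x)))) := by
        field_simp
      rw [this, h3, mul_zero]
    have p1 : 2 * U * (fb x + ft x) = 0 := by
      linear_combination h0 - k2 + k3 + w * k1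
    have p2 : fb x + ft x = 0 := by
      have : (2 : ℂ) * U ≠ 0 := mul_ne_zero two_ne_zero hU'
      exact (mul_eq_zero.1 p1).resolve_left this
    have p3 : fl x + frr x = 0 := by
      rw [p2, mul_zero, zero_add] at h0
      exact (mul_eq_zero.1 h0).resolve_left hV'
    have p4 : fb x - ft x = 0 := by
      rw [p3, mul_zero, add_zero] at k2
      exact (mul_eq_zero.1 k2).resolve_left (mul_ne_zero hU' hw0)
    have p5 : fl (1 - x) - frr (1 - x) = 0 := by
      rw [p4, mul_zero, zero_sub, neg_eq_zero] at k1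
      exact (mul_eq_zero.1 k1).resolve_left (mul_ne_zero hV' (pow_ne_zero 2 hw0))
    refine ⟨?_, ?_, p3, p5⟩
    · linear_combination (p2 + p4) / 2
    · linear_combination (p2 - p4) / 2
  have hdiff : ∀ᵐ x ∂tau, fl x - frr x = 0 := by
    have h1 : ∀ᵐ x ∂tau, fl (1 - x) - frr (1 - x) = 0 := hall.mono fun x hx => hx.2.2.2
    have h2 := reflect_mp.quasiMeasurePreserving.ae h1
    filter_upwards [h2] with x hx
    rwa [sub_sub_cancel] at hx
  refine ⟨hall.mono fun x hx => hx.1, hall.mono fun x hx => hx.2.1, ?_, ?_⟩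
  · filter_upwards [hall, hdiff] with x h1 h2
    have := h1.2.2.1
    simp only [Pi.zero_apply]
    linear_combination (this + h2) / 2
  · filter_upwards [hall, hdiff] with x h1 h2
    have := h1.2.2.1
    simp only [Pi.zero_apply]
    linear_combination (this - h2) / 2

theorem le_sig (h : LinearIndependent ℝ ![u, v]) :
    edgeM b u ≤ sig b u v ∧ edgeM (b + v) u ≤ sig b u v ∧ edgeM b v ≤ sig b u v ∧
      edgeM (b + u) v ≤ sig b u v := by
  rw [sig_eq h]
  refine ⟨?_, ?_, ?_, ?_⟩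
  · intro s
    simp only [Measure.add_apply]
    exact le_add_right (le_add_right le_self_add)
  · intro s
    simp only [Measure.add_apply]
    exact le_add_right (le_add_right le_add_self)
  · intro s
    simp only [Measure.add_apply]
    exact le_add_right le_add_self
  · intro s
    simp only [Measure.add_apply]
    exact le_add_self

theorem complete_aux (h : LinearIndependent ℝ ![u, v]) [IsFiniteMeasure (sig b u v)] {f : E → ℂ}
    (hsm : StronglyMeasurable f) (hm : MemLp f 2 (sig b u v))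
    (horth : ∀ g : Fin 4 × ℤ, ∫ x, conj (ex (fr u v g) x) * f x ∂(sig b u v) = 0) :
    ∀ᵐ x ∂(sig b u v), f x = 0 := by
  have hu : 0 < ‖u‖ := norm_pos_iff.2 (h.ne_zero 0)
  have hv : 0 < ‖v‖ := norm_pos_iff.2 (h.ne_zero 1)
  obtain ⟨le1, le2, le3, le4⟩ := le_sig (b := b) h
  have m1 := memLp_edge hu (hm.mono_measure le1)
  have m2 := memLp_edge hu (hm.mono_measure le2)
  have m3 := memLp_edge hv (hm.mono_measure le3)
  have m4 := memLp_edge hv (hm.mono_measure le4)
  have key := four_eq hu hv m1 m2 m3 m4 (by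
    intro i m
    have h0 := horth (i, m)
    have hcont : Continuous fun x => conj (ex (fr u v (i, m)) x) :=
      Complex.continuous_conj.comp (ex_continuous _)
    have hint : Integrable (fun x => conj (ex (fr u v (i, m)) x) * f x) (sig b u v) := by
      have hb : MemLp (fun x => conj (ex (fr u v (i, m)) x)) ⊤ (sig b u v) := by
        refine memLp_top_of_bound hcont.aestronglyMeasurable 1
          (Filter.Eventually.of_forall fun x => ?_)
        rw [RCLike.norm_conj, norm_ex]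
      exact (hm.integrable (by norm_num)).mul_of_top_right hb
    have hsm' : StronglyMeasurable fun x => conj (ex (fr u v (i, m)) x) * f x :=
      hcont.stronglyMeasurable.mul hsm
    rw [sig_eq h] at h0
    rw [integral_add_measure, integral_add_measure, integral_add_measure,
      integral_edge _ _ _ hsm'.aestronglyMeasurable, integral_edge _ _ _ hsm'.aestronglyMeasurable,
      integral_edge _ _ _ hsm'.aestronglyMeasurable,
      integral_edge _ _ _ hsm'.aestronglyMeasurable] at h0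
    · have hc0 : ex (fr u v (i, m)) b ≠ 0 := Complex.exp_ne_zero _
      have hc1 : conj (ex (fr u v (i, m)) b) ≠ 0 := by simpa using hc0
      have w1 : ∀ t : ℝ, conj (ex (fr u v (i, m)) (b + t • u)) =
          conj (ex (fr u v (i, m)) b) * e (-(al i m * t)) := by
        intro t
        have := ex_fr (b := b) h (i, m) t 0
        rw [zero_smul, add_zero, mul_zero, e_zero, mul_one] at this
        rw [this, map_mul, conj_e]
      have w2 : ∀ t : ℝ, conj (ex (fr u v (i, m)) (b + v + t • u)) =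
          conj (ex (fr u v (i, m)) b) * (e (-(be i m)) * e (-(al i m * t))) := by
        intro t
        have := ex_fr (b := b) h (i, m) t 1
        rw [one_smul, mul_one] at this
        rw [show b + v + t • u = b + t • u + v by abel, this, map_mul, map_mul, conj_e, conj_e]
        ring
      have w3 : ∀ t : ℝ, conj (ex (fr u v (i, m)) (b + t • v)) =
          conj (ex (fr u v (i, m)) b) * e (-(be i m * t)) := by
        intro t
        have := ex_fr (b := b) h (i, m) 0 t
        rw [zero_smul, add_zero, mul_zero, e_zero, one_mul] at this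
        rw [this, map_mul, conj_e]
      have w4 : ∀ t : ℝ, conj (ex (fr u v (i, m)) (b + u + t • v)) =
          conj (ex (fr u v (i, m)) b) * (e (-(al i m)) * e (-(be i m * t))) := by
        intro t
        have := ex_fr (b := b) h (i, m) 1 t
        rw [one_smul, mul_one] at this
        rw [this, map_mul, map_mul, conj_e, conj_e]
      simp only [w1, w2, w3, w4, mul_assoc, integral_const_mul] at h0
      have h5 : conj (ex (fr u v (i, m)) b) *
          ((‖u‖ : ℂ) * ∫ x, e (-(al i m * x)) * f (b + x • u) ∂tau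
        + ‖u‖ * (e (-(be i m)) * ∫ x, e (-(al i m * x)) * f (b + v + x • u) ∂tau)
        + ‖v‖ * ∫ y, e (-(be i m * y)) * f (b + y • v) ∂tau
        + ‖v‖ * (e (-(al i m)) * ∫ y, e (-(be i m * y)) * f (b + u + y • v) ∂tau)) = 0 := by
        rw [← h0]
        simp only [Complex.real_smul]
        ring
      exact (mul_eq_zero.1 h5).resolve_left hc1
    · exact hint.mono_measure le1
    · exact hint.mono_measure le2
    · exact (hint.mono_measure le1).add_measure (hint.mono_measure le2)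
    · exact hint.mono_measure le3
    · exact ((hint.mono_measure le1).add_measure (hint.mono_measure le2)).add_measure
        (hint.mono_measure le3)
    · exact hint.mono_measure le4)
  obtain ⟨k1, k2, k3, k4⟩ := key
  rw [sig_eq h, ae_add_measure_iff, ae_add_measure_iff, ae_add_measure_iff]
  exact ⟨⟨⟨ae_edge hsm k1, ae_edge hsm k2⟩, ae_edge hsm k3⟩, ae_edge hsm k4⟩

theorem complete (h : LinearIndependent ℝ ![u, v]) [IsFiniteMeasure (sig b u v)] :
    (Submodule.span ℂ (exLp (sig b u v) '' range (fr u v))).topologicalClosure = ⊤ := by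
  rw [Submodule.topologicalClosure_eq_top_iff, Submodule.eq_bot_iff]
  intro f hf
  rw [Submodule.mem_orthogonal] at hf
  have horth : ∀ g : Fin 4 × ℤ, ∫ x, conj (ex (fr u v g) x) * f x ∂(sig b u v) = 0 := by
    intro g
    have h1 := hf (exLp (sig b u v) (fr u v g)) (Submodule.subset_span ⟨_, ⟨g, rfl⟩, rfl⟩)
    rw [L2.inner_def] at h1
    rw [← h1]
    refine integral_congr_ae ?_
    filter_upwards [(ex_memLp (sig b u v) (fr u v g)).coeFn_toLp] with x hx
    have hx' : (exLp (sig b u v) (fr u v g)) x = ex (fr u v g) x := hx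
    rw [hx', RCLike.inner_apply]
    ring
  rw [Lp.eq_zero_iff_ae_eq_zero]
  exact complete_aux h (Lp.stronglyMeasurable f) (Lp.memLp f) horth

theorem comb_memLp (μ : Measure E) [IsFiniteMeasure μ] (F : Finset E) (c : E → ℂ) :
    MemLp (comb F c) 2 μ := by
  have h1 : comb F c = fun x => ∑ l ∈ F, c l * ex l x := rfl
  rw [h1]
  exact memLp_finset_sum F fun l _ => (ex_memLp μ l).const_mul (c l)

theorem dense_of_closure {μ : Measure E} [IsFiniteMeasure μ] {Λ : Set E}
    (h : (Submodule.span ℂ (exLp μ '' Λ)).topologicalClosure = ⊤) : DenseSpan μ Λ := by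
  classical
  intro f hf ε hε
  have h1 : hf.toLp f ∈ closure ((Submodule.span ℂ (exLp μ '' Λ) : Submodule ℂ (Lp ℂ 2 μ)) :
      Set (Lp ℂ 2 μ)) := by
    rw [← Submodule.topologicalClosure_coe, h]
    trivial
  rw [Metric.mem_closure_iff] at h1
  obtain ⟨g, hg, hdist⟩ := h1 (Real.sqrt ε) (Real.sqrt_pos.2 hε)
  have hg' : g ∈ Submodule.span ℂ (exLp μ '' Λ) := hg
  rw [Finsupp.mem_span_image_iff_linearCombination] at hg'
  obtain ⟨c, hc, hcg⟩ := hg'
  refine ⟨c.support, c, ?_, ?_⟩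
  · exact (Finsupp.mem_supported ℂ c).1 hc
  · have h2 : g = ∑ l ∈ c.support, c l • exLp μ l := by
      rw [← hcg, Finsupp.linearCombination_apply, Finsupp.sum]
    have h3 : ‖hf.toLp f - g‖ ^ 2 = ∫ x, ‖f x - comb c.support c x‖ ^ 2 ∂μ := by
      rw [norm_sq_Lp]
      refine integral_congr_ae ?_
      filter_upwards [Lp.coeFn_sub (hf.toLp f) g, hf.coeFn_toLp, coe_sum (μ := μ) c.support c]
        with x k1 k2 k3
      rw [k1, Pi.sub_apply, k2, h2, k3]
      rfl
    rw [← h3]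
    rw [dist_eq_norm] at hdist
    calc ‖hf.toLp f - g‖ ^ 2 < (Real.sqrt ε) ^ 2 :=
          pow_lt_pow_left₀ hdist (norm_nonneg _) two_ne_zero
      _ = ε := Real.sq_sqrt hε.le

/-- **Main theorem.** The length measure on the boundary of every parallelogram (in particular of
every square) admits an exponential Riesz basis. -/
theorem result (b u v : E) (h : LinearIndependent ℝ ![u, v]) :
    ∃ Λ : Set E, IsRieszBasis (sig b u v) Λ := by
  classical
  haveI := sig_finite (b := b) h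
  have hu : 0 < ‖u‖ := norm_pos_iff.2 (h.ne_zero 0)
  have hv : 0 < ‖v‖ := norm_pos_iff.2 (h.ne_zero 1)
  refine ⟨range (fr u v), inferInstance, countable_range _, dense_of_closure (complete h),
    min ‖u‖ ‖v‖ / 2, 8 * max ‖u‖ ‖v‖, by have := lt_min hu hv; positivity, ?_, ?_⟩
  · have h1 := min_le_max (a := ‖u‖) (b := ‖v‖)
    have h2 := lt_min hu hv
    linarith
  · intro F c hF
    obtain ⟨G, hG⟩ : ∃ G : Finset (Fin 4 × ℤ), G.image (fr u v) = F := by
      have h1 : (F : Set E) ⊆ (fr u v) '' univ := by rwa [image_univ]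
      obtain ⟨G, -, hG⟩ := Finset.subset_set_image_iff.1 h1
      exact ⟨G, hG⟩
    have hsum : ∀ {R : Type} [AddCommMonoid R] (φ : E → R),
        ∑ l ∈ F, φ l = ∑ g ∈ G, φ (fr u v g) := by
      intro R _ φ
      rw [← hG, Finset.sum_image fun x _ y _ hxy => fr_inj h hxy]
    have h2 := riesz_ineq (b := b) h G c
    simp only [comb, hsum]
    exact h2

end Pool.Agent.Results.MP_9e9244_an.SquareRieszBasis
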